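import Mathlib

/-!
# The textbook functional calculus and the sets `WT`, `WH`

`IsCalculus T V Φ`: `Φ` is a unital algebra homomorphism on the functions holomorphic on `V`, with
`Φ z = T`, continuous for locally uniform convergence on `V`. The set `WT C₁ C₂` is the union of the
numerical ranges of `f(T) = Φ f` over all admissible pairs `(T, f)`; `WH H C₁ C₂` is the union over
the admissible pairs where `T` acts on the given Hilbert space `H`.
-/

open Complex Metric Set Filter Topology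

namespace Pool.Agent.Lib.MP_c3d375_an

/-- `Φ` is a holomorphic functional calculus for `T` on the open set `V`: a unital homomorphism from
the algebra of functions holomorphic on `V` to the bounded operators, which maps the identity
function to `T` and is continuous for locally uniform convergence on `V`. -/
structure IsCalculus {H : Type*} [NormedAddCommGroup H] [InnerProductSpace ℂ H]
    (T : H →L[ℂ] H) (V : Set ℂ) (Φ : (ℂ → ℂ) → (H →L[ℂ] H)) : Prop where
  one : Φ (fun _ => 1) = 1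
  id : Φ (fun z => z) = T
  add : ∀ g h : ℂ → ℂ, DifferentiableOn ℂ g V → DifferentiableOn ℂ h V →
    Φ (fun z => g z + h z) = Φ g + Φ h
  smul : ∀ (c : ℂ) (g : ℂ → ℂ), DifferentiableOn ℂ g V → Φ (fun z => c * g z) = c • Φ g
  mul : ∀ g h : ℂ → ℂ, DifferentiableOn ℂ g V → DifferentiableOn ℂ h V →
    Φ (fun z => g z * h z) = Φ g * Φ h
  cont : ∀ (F : ℕ → ℂ → ℂ) (g : ℂ → ℂ), (∀ n, DifferentiableOn ℂ (F n) V) →
    DifferentiableOn ℂ g V → TendstoLocallyUniformlyOn F g atTop V →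
    Tendsto (fun n => Φ (F n)) atTop (𝓝 (Φ g))

/-- `W(C₁, C₂)` with the textbook functional calculus. -/
def WT (C₁ C₂ : Set ℂ) : Set ℂ :=
  {w : ℂ | ∃ (H : Type) (_ : NormedAddCommGroup H)
    (_ : InnerProductSpace ℂ H) (_ : CompleteSpace H)
    (T : H →L[ℂ] H) (f : ℂ → ℂ) (V : Set ℂ) (Φ : (ℂ → ℂ) → (H →L[ℂ] H)),
    (∀ x : H, ‖x‖ = 1 → inner ℂ x (T x) ∈ C₁) ∧
    IsOpen V ∧ C₁ ⊆ V ∧ DifferentiableOn ℂ f V ∧ f '' C₁ ⊆ C₂ ∧ IsCalculus T V Φ ∧
    ∃ x : H, ‖x‖ = 1 ∧ inner ℂ x (Φ f x) = w}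

/-- The union of the numerical ranges `W(f(T))` over all admissible pairs `(T, f)` where `T` is an
operator on the given Hilbert space `H`. -/
def WH (H : Type) [NormedAddCommGroup H] [InnerProductSpace ℂ H] (C₁ C₂ : Set ℂ) : Set ℂ :=
  {w : ℂ | ∃ (T : H →L[ℂ] H) (f : ℂ → ℂ) (V : Set ℂ) (Φ : (ℂ → ℂ) → (H →L[ℂ] H)),
    (∀ x : H, ‖x‖ = 1 → inner ℂ x (T x) ∈ C₁) ∧
    IsOpen V ∧ C₁ ⊆ V ∧ DifferentiableOn ℂ f V ∧ f '' C₁ ⊆ C₂ ∧ IsCalculus T V Φ ∧
    ∃ x : H, ‖x‖ = 1 ∧ inner ℂ x (Φ f x) = w}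

end Pool.Agent.Lib.MP_c3d375_an
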