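import Pool.Agent.Lib.MP_c3d375_an.Own.Textbook
import Pool.Agent.Lib.MP_c3d375_an.Neg.H99.LowB
import Pool.Agent.Lib.MP_c3d375_an.Neg.Iface

/-!
# The set `W(C₁, C₂)` for one fixed Hilbert space
-/

open Complex Metric Set Filter Topology Polynomial

namespace Pool.Agent.Lib.MP_c3d375_an

theorem WH_subset_WT {H : Type} [i1 : NormedAddCommGroup H] [i2 : InnerProductSpace ℂ H]
    [i3 : CompleteSpace H] {C₁ C₂ : Set ℂ} : WH H C₁ C₂ ⊆ WT C₁ C₂ := by
  rintro w ⟨T, f, V, Φ, h⟩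
  exact ⟨H, i1, i2, i3, T, f, V, Φ, h⟩

/-- a calculus which is given by polynomial approximation on a neighbourhood of `C₁` -/
theorem exists_isCalculus_compact {H : Type*} [NormedAddCommGroup H] [InnerProductSpace ℂ H]
    [CompleteSpace H] [Nontrivial H] {C₁ V : Set ℂ} (hC : IsCompact C₁) (hconv : Convex ℝ C₁)
    (T : H →L[ℂ] H) (hT : ∀ x : H, ‖x‖ = 1 → inner ℂ x (T x) ∈ C₁) (hV : IsOpen V)
    (hsub : C₁ ⊆ V) :
    ∃ (N : Set ℂ) (Φ : (ℂ → ℂ) → (H →L[ℂ] H)), IsOpen N ∧ C₁ ⊆ N ∧ N ⊆ V ∧ IsCalculus T V Φ ∧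
      ∀ g : ℂ → ℂ, DifferentiableOn ℂ g V → Calc T N g (Φ g) := by
  obtain ⟨δ, hδ, hsub'⟩ := hC.exists_cthickening_subset_open hV hsub
  have hCN : C₁ ⊆ thickening δ C₁ := self_subset_thickening hδ _
  obtain ⟨Φ, h1, h2⟩ := exists_isCalculus T hC.cthickening (hconv.cthickening δ) hsub'
    isOpen_thickening (thickening_subset_cthickening δ C₁)
    ((spectrum_subset_of_numRange hC.isClosed hconv hT).trans hCN) hV
  exact ⟨thickening δ C₁, Φ, isOpen_thickening, hCN,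
    (thickening_subset_cthickening δ C₁).trans hsub', h1, h2⟩

/-- Jordan blocks: a whole disc of values -/
theorem jordan_mem_WH {C₁ C₂ V : Set ℂ} (hC : IsCompact C₁) (hconv : Convex ℝ C₁) {c : ℂ}
    {r : ℝ} (hr : 0 < r) (hball : closedBall c r ⊆ C₁) (hV : IsOpen V)
    (hsub : C₁ ⊆ V) {f : ℂ → ℂ} (hf : DifferentiableOn ℂ f V)
    (hfC : f '' C₁ ⊆ C₂) {ζ : ℂ} (hζ : ‖ζ‖ ≤ 1) :
    f c + r * deriv f c * ζ ∈ WH E2 C₁ C₂ := by
  obtain ⟨x, hx, hxζ⟩ := exists_unit_vector hζ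
  have hT : ∀ y : E2, ‖y‖ = 1 →
      inner ℂ y ((c • (1 : E2 →L[ℂ] E2) + (r : ℂ) • J) y) ∈ C₁ := by
    intro y hy
    apply hball
    rw [add_apply, inner_add_right, smul_apply, smul_apply, inner_smul_right, inner_smul_right,
      inner_one_apply, inner_J, hy, mem_closedBall, dist_eq_norm]
    have h1 := norm_sq_E2 y
    rw [hy] at h1
    have h2 : ‖(2 * ((starRingEnd ℂ) (y 0) * y 1) : ℂ)‖ ≤ 1 := by
      rw [norm_mul, norm_mul, RCLike.norm_conj, Complex.norm_ofNat]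
      nlinarith [sq_nonneg (‖y 0‖ - ‖y 1‖)]
    have h3 : c * ((1 ^ 2 : ℝ) : ℂ) + r * (2 * ((starRingEnd ℂ) (y 0) * y 1)) - c =
        r * (2 * ((starRingEnd ℂ) (y 0) * y 1)) := by
      push_cast; ring
    rw [h3, norm_mul, Complex.norm_real, Real.norm_eq_abs, abs_of_pos hr]
    nlinarith
  obtain ⟨N, Φ, hN, hCN, hNV, hΦ, hΦc⟩ := exists_isCalculus_compact hC hconv _ hT hV hsub
  obtain ⟨p, hp, hA⟩ := hΦc f hf
  refine ⟨c • 1 + (r : ℂ) • J, f, V, Φ, hT, hV, hsub, hf, hfC, hΦ, x, hx, ?_⟩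
  have hcU : c ∈ N := hCN (hball (mem_closedBall_self hr.le))
  have h1 : Tendsto (fun n => (p n).eval c) atTop (𝓝 (f c)) := hp.tendsto_at hcU
  have h2 : Tendsto (fun n => (derivative (p n)).eval c) atTop (𝓝 (deriv f c)) := by
    have := hp.tendstoLocallyUniformlyOn.deriv
      (Eventually.of_forall fun n => (p n).differentiable.differentiableOn) hN
    have h3 := (this.tendsto_at hcU)
    refine h3.congr fun n => ?_
    simp only [Function.comp, Polynomial.deriv]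
  have h3 : Tendsto (fun n => inner ℂ x ((aeval (c • (1 : E2 →L[ℂ] E2) + (r : ℂ) • J) (p n)) x))
      atTop (𝓝 (inner ℂ x (Φ f x))) := by
    have h4 : Continuous fun B : E2 →L[ℂ] E2 => inner ℂ x (B x) := by fun_prop
    exact (h4.tendsto (Φ f)).comp hA
  refine tendsto_nhds_unique h3 ?_
  have h5 : (fun n => inner ℂ x ((aeval (c • (1 : E2 →L[ℂ] E2) + (r : ℂ) • J) (p n)) x)) =
      fun n => (p n).eval c + r * (derivative (p n)).eval c * ζ := by
    funext n
    rw [aeval_jordan, add_apply, inner_add_right, smul_apply, smul_apply, inner_smul_right,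
      inner_smul_right, inner_one_apply, hxζ, hx]
    simp
  rw [h5]
  exact h1.add ((h2.const_mul _).mul_const _)

/-- 2 × 2 matrices with two different eigenvalues -/
theorem two_mem_WH {H : Type} [NormedAddCommGroup H] [InnerProductSpace ℂ H]
    [CompleteSpace H] [Nontrivial H] {C₁ C₂ V : Set ℂ} (hC : IsCompact C₁) (hconv : Convex ℝ C₁)
    (T : H →L[ℂ] H) (hT : ∀ x : H, ‖x‖ = 1 → inner ℂ x (T x) ∈ C₁) {l₁ l₂ : ℂ}
    (hT2 : T * T = (l₁ + l₂) • T - (l₁ * l₂) • 1) (hl : l₁ ≠ l₂) (hl₁ : l₁ ∈ C₁) (hl₂ : l₂ ∈ C₁)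
    (hV : IsOpen V) (hsub : C₁ ⊆ V) {f : ℂ → ℂ} (hf : DifferentiableOn ℂ f V)
    (hfC : f '' C₁ ⊆ C₂) {x : H} (hx : ‖x‖ = 1) :
    ((f l₁ - f l₂) * inner ℂ x (T x) + (l₁ * f l₂ - l₂ * f l₁)) / (l₁ - l₂) ∈ WH H C₁ C₂ := by
  obtain ⟨N, Φ, hN, hCN, hNV, hΦ, hΦc⟩ := exists_isCalculus_compact hC hconv _ hT hV hsub
  obtain ⟨p, hp, hA⟩ := hΦc f hf
  refine ⟨T, f, V, Φ, hT, hV, hsub, hf, hfC, hΦ, x, hx, ?_⟩
  have h1 : Tendsto (fun n => (p n).eval l₁) atTop (𝓝 (f l₁)) := hp.tendsto_at (hCN hl₁)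
  have h2 : Tendsto (fun n => (p n).eval l₂) atTop (𝓝 (f l₂)) := hp.tendsto_at (hCN hl₂)
  have hl0 : l₁ - l₂ ≠ 0 := sub_ne_zero.2 hl
  have h3 : Tendsto (fun n => inner ℂ x ((aeval T (p n)) x))
      atTop (𝓝 (inner ℂ x (Φ f x))) := by
    have h4 : Continuous fun B : H →L[ℂ] H => inner ℂ x (B x) := by fun_prop
    exact (h4.tendsto (Φ f)).comp hA
  refine tendsto_nhds_unique h3 ?_
  have h5 : (fun n => inner ℂ x ((aeval T (p n)) x)) =
      fun n => (((p n).eval l₁ - (p n).eval l₂) * inner ℂ x (T x) +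
        (l₁ * (p n).eval l₂ - l₂ * (p n).eval l₁)) / (l₁ - l₂) := by
    funext n
    rw [eq_div_iff hl0]
    have h6 := congrArg (fun B : H →L[ℂ] H => inner ℂ x (B x)) (Neg.H99.aeval_two hT2 (p n))
    simp only [add_apply, inner_add_right, smul_apply, inner_smul_right, inner_one_apply, hx] at h6
    rw [mul_comm, h6]
    simp
  rw [h5]
  exact (((h1.sub h2).mul_const _).add ((h2.const_mul _).sub (h1.const_mul _))).div_const _

/-! ### Embedding of a Hilbert space into a larger one -/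

section embed

variable {G H : Type} [NormedAddCommGroup G] [InnerProductSpace ℂ G] [CompleteSpace G]
  [NormedAddCommGroup H] [InnerProductSpace ℂ H] [CompleteSpace H]

/-- `J B J* + c (1 - J J*)` -/
noncomputable def emb (J : G →ₗᵢ[ℂ] H) (c : ℂ) (B : G →L[ℂ] G) : H →L[ℂ] H :=
  J.toContinuousLinearMap ∘L B ∘L J.toContinuousLinearMap.adjoint +
    c • (1 - J.toContinuousLinearMap ∘L J.toContinuousLinearMap.adjoint)

theorem adj_J (J : G →ₗᵢ[ℂ] H) (y : G) : J.toContinuousLinearMap.adjoint (J y) = y := by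
  refine ext_inner_left ℂ fun z => ?_
  rw [ContinuousLinearMap.adjoint_inner_right]
  exact J.inner_map_map z y

theorem emb_apply (J : G →ₗᵢ[ℂ] H) (c : ℂ) (B : G →L[ℂ] G) (x : H) :
    emb J c B x = J (B (J.toContinuousLinearMap.adjoint x)) +
      c • (x - J (J.toContinuousLinearMap.adjoint x)) := rfl

theorem emb_mul (J : G →ₗᵢ[ℂ] H) (c d : ℂ) (B D : G →L[ℂ] G) :
    emb J c B * emb J d D = emb J (c * d) (B * D) := by
  ext x
  rw [mul_apply_eq_comp, emb_apply, emb_apply, emb_apply]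
  set y := J.toContinuousLinearMap.adjoint x with hy
  have h1 : J.toContinuousLinearMap.adjoint (J (D y) + d • (x - J y)) = D y := by
    rw [map_add, map_smul, map_sub, adj_J, adj_J, ← hy, sub_self, smul_zero, add_zero]
  rw [h1, mul_apply_eq_comp, add_sub_cancel_left, smul_smul]

theorem emb_add (J : G →ₗᵢ[ℂ] H) (c d : ℂ) (B D : G →L[ℂ] G) :
    emb J c B + emb J d D = emb J (c + d) (B + D) := by
  ext x
  rw [add_apply, emb_apply, emb_apply, emb_apply, add_apply, map_add, add_smul]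
  abel

theorem emb_smul (J : G →ₗᵢ[ℂ] H) (k c : ℂ) (B : G →L[ℂ] G) :
    k • emb J c B = emb J (k * c) (k • B) := by
  ext x
  rw [smul_apply, emb_apply, emb_apply, smul_apply, map_smul, smul_add, smul_smul]

theorem emb_one (J : G →ₗᵢ[ℂ] H) : emb J 1 (1 : G →L[ℂ] G) = 1 := by
  ext x
  rw [emb_apply, one_smul]
  simp

theorem emb_aeval (J : G →ₗᵢ[ℂ] H) (c : ℂ) (T : G →L[ℂ] G) (p : ℂ[X]) :
    aeval (emb J c T) p = emb J (p.eval c) (aeval T p) := by
  induction p using Polynomial.induction_on with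
  | C a =>
    simp only [eval_C, aeval_C, Algebra.algebraMap_eq_smul_one]
    have h1 := emb_smul J a 1 (1 : G →L[ℂ] G)
    rw [emb_one, mul_one] at h1
    exact h1
  | add p q hp hq => rw [map_add, hp, hq, emb_add, eval_add, map_add]
  | monomial n a h =>
    have h1 : (C a * X ^ n * X : ℂ[X]).eval c = (C a * X ^ n : ℂ[X]).eval c * c := by
      rw [eval_mul, eval_X]
    have h2 : aeval T (C a * X ^ n * X : ℂ[X]) = aeval T (C a * X ^ n : ℂ[X]) * T := by
      rw [map_mul, aeval_X]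
    rw [pow_succ, ← mul_assoc, map_mul, aeval_X, h, emb_mul, h1, h2]

theorem continuous_emb (J : G →ₗᵢ[ℂ] H) : Continuous fun q : ℂ × (G →L[ℂ] G) => emb J q.1 q.2 := by
  unfold emb
  fun_prop

theorem inner_emb (J : G →ₗᵢ[ℂ] H) (c : ℂ) (B : G →L[ℂ] G) (x : H) :
    inner ℂ x (emb J c B x) =
      inner ℂ (J.toContinuousLinearMap.adjoint x) (B (J.toContinuousLinearMap.adjoint x)) +
      c * ((‖x‖ ^ 2 - ‖J.toContinuousLinearMap.adjoint x‖ ^ 2 : ℝ) : ℂ) := by
  set y := J.toContinuousLinearMap.adjoint x with hy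
  have h1 : ∀ z : G, inner ℂ x (J z) = inner ℂ y z := by
    intro z
    rw [hy, ContinuousLinearMap.adjoint_inner_left]
    rfl
  rw [emb_apply, ← hy, inner_add_right, inner_smul_right, inner_sub_right, h1, h1,
    inner_self_eq_norm_sq_to_K, inner_self_eq_norm_sq_to_K]
  push_cast
  rfl

theorem norm_adj_le (J : G →ₗᵢ[ℂ] H) (x : H) : ‖J.toContinuousLinearMap.adjoint x‖ ≤ ‖x‖ := by
  set y := J.toContinuousLinearMap.adjoint x with hy
  have h1 : ‖y‖ ^ 2 ≤ ‖x‖ * ‖y‖ := by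
    have h2 : inner ℂ x (J y) = inner ℂ y y := by
      have h4 := ContinuousLinearMap.adjoint_inner_left J.toContinuousLinearMap y x
      rw [← hy] at h4
      exact h4.symm
    have h3 := norm_inner_le_norm (𝕜 := ℂ) x (J y)
    rw [h2, J.norm_map, inner_self_eq_norm_sq_to_K] at h3
    simpa using! h3
  by_cases h0 : ‖y‖ = 0
  · rw [h0]; exact norm_nonneg _
  · have : 0 < ‖y‖ := lt_of_le_of_ne (norm_nonneg _) (Ne.symm h0)
    nlinarith

/-- The sets increase with the Hilbert space. -/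
theorem WH_mono [Nontrivial G] (J : G →ₗᵢ[ℂ] H) {C₁ C₂ : Set ℂ} (hC : IsCompact C₁)
    (hconv : Convex ℝ C₁) : WH G C₁ C₂ ⊆ WH H C₁ C₂ := by
  rintro w ⟨T, f, V, Φ, hT, hV, hsub, hf, hfC, hΦ, x, hx, hw⟩
  have hnH : Nontrivial H := ⟨J x, 0, fun h => by
    have := J.norm_map x
    rw [h, norm_zero, hx] at this
    exact zero_ne_one this⟩
  have hcC : inner ℂ x (T x) ∈ C₁ := hT x hx
  set c : ℂ := inner ℂ x (T x) with hc
  -- the numerical range of the extension
  have hT' : ∀ y : H, ‖y‖ = 1 → inner ℂ y (emb J c T y) ∈ C₁ := by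
    intro y hy
    rw [inner_emb, hy]
    set z := J.toContinuousLinearMap.adjoint y with hz
    have hz1 : ‖z‖ ≤ 1 := by rw [← hy]; exact norm_adj_le J y
    by_cases hz0 : z = 0
    · rw [hz0]
      simpa using hcC
    · have hzn : 0 < ‖z‖ := norm_pos_iff.2 hz0
      set u : G := ((‖z‖ : ℂ)⁻¹) • z with hu
      have hun : ‖u‖ = 1 := by
        rw [hu, norm_smul, norm_inv, Complex.norm_real, norm_norm, inv_mul_cancel₀ hzn.ne']
      have hzu : z = (‖z‖ : ℂ) • u := by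
        rw [hu, smul_smul, mul_inv_cancel₀ (by exact_mod_cast hzn.ne'), one_smul]
      have h2 : inner ℂ z (T z) = ((‖z‖ ^ 2 : ℝ) : ℂ) * inner ℂ u (T u) := by
        conv_lhs => rw [hzu]
        rw [map_smul, inner_smul_left, inner_smul_right, Complex.conj_ofReal]
        push_cast
        ring
      have h3 := hconv (hT u hun) hcC (sq_nonneg ‖z‖)
        (by nlinarith : (0 : ℝ) ≤ 1 - ‖z‖ ^ 2) (by ring)
      rw [h2]
      convert h3 using 1
      simp only [Complex.real_smul]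
      push_cast
      ring
  obtain ⟨N, Ψ, hN, hCN, hNV, hΨ, hΨc⟩ := exists_isCalculus_compact hC hconv _ hT' hV hsub
  obtain ⟨N', Ψ', hN', hCN', hNV', hΨ', hΨc'⟩ := exists_isCalculus_compact hC hconv T hT hV hsub
  refine ⟨emb J c T, f, V, Ψ, hT', hV, hsub, hf, hfC, hΨ, J x, by rw [J.norm_map, hx], ?_⟩
  have hA : Φ f = Ψ' f := hΦ.eq_of_calc hV
    ((spectrum_subset_of_numRange hC.isClosed hconv hT).trans hsub) hf hN'
    ((spectrum_subset_of_numRange hC.isClosed hconv hT).trans hCN') (hΨc' f hf)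
  obtain ⟨p, hp1, hp2⟩ := hΨc' f hf
  have hA' : Ψ f = emb J (f c) (Φ f) := by
    refine Calc.unique (hΨc f hf) (U₂ := N') (g := f) ⟨p, hp1, ?_⟩ hN hN'
      ((spectrum_subset_of_numRange hC.isClosed hconv hT').trans hCN)
      ((spectrum_subset_of_numRange hC.isClosed hconv hT').trans hCN') fun _ _ => rfl
    have h1 : Tendsto (fun n => (p n).eval c) atTop (𝓝 (f c)) := hp1.tendsto_at (hCN' hcC)
    have h2 := ((continuous_emb J).tendsto (f c, Ψ' f)).comp (h1.prodMk_nhds hp2)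
    rw [hA]
    refine h2.congr fun n => ?_
    rw [emb_aeval]
    rfl
  rw [hA', inner_emb, adj_J, J.norm_map, hw, sub_self]
  simp

end embed

/-- an isometry from `ℂ²` into any Hilbert space of dimension at least two -/
theorem exists_isometry {H : Type} [NormedAddCommGroup H] [InnerProductSpace ℂ H]
    (hH : 1 < Module.rank ℂ H) : Nonempty (E2 →ₗᵢ[ℂ] H) := by
  have hnt : Nontrivial H := by
    by_contra hcon
    rw [not_nontrivial_iff_subsingleton] at hcon
    rw [rank_subsingleton'] at hH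
    exact absurd hH (by simp)
  obtain ⟨x, hx⟩ := exists_ne (0 : H)
  obtain ⟨y, hxy⟩ := exists_linearIndependent_pair_of_one_lt_rank hH hx
  have ho := InnerProductSpace.gramSchmidtNormed_orthonormal hxy
  set b := (EuclideanSpace.basisFun (Fin 2) ℂ) with hb
  let L : E2 →ₗ[ℂ] H := b.toBasis.constr ℂ (InnerProductSpace.gramSchmidtNormed ℂ ![x, y])
  refine ⟨L.isometryOfOrthonormal (v := b.toBasis) ?_ ?_⟩
  · rw [OrthonormalBasis.coe_toBasis]
    exact b.orthonormal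
  · have : (L ∘ b.toBasis) = InnerProductSpace.gramSchmidtNormed ℂ ![x, y] := by
      funext i
      simp [L]
    rw [this]
    exact ho

end Pool.Agent.Lib.MP_c3d375_an
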