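import Pool.Agent.Lib.MP_c3d375_an.Own.Fixed
import Pool.Agent.Lib.MP_c3d375_an.Neg.H37.Tip

/-!
# The tip, for 2 × 2 matrices (copy of helper37's file `H37/Tip`)
-/

open Complex Metric Set Filter Topology ComplexConjugate Pool.Agent.Lib.MP_c3d375_an

namespace C3N.H37

theorem tip_st2 (hGC1 : GC1Statement) (hGIN : GINStatement) (hGC2 : GC2Statement)
    (hTW : TWStatement) (hTA : TAStatement) :
    ∀ a : ℝ, 19 / 20 ≤ a → a < 1 → ∃ e0 : ℝ, 0 < e0 ∧ ∀ e : ℝ, 0 < e → e < e0 →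
    ∃ w ∈ WH E2 (C1 a e) C2,
      w.im = 0 ∧ w.re ≤ -(1 / 100 * (1 - a) ^ (-2 : ℝ) * e ^ (3 / 2 : ℝ)) := by
  intro a ha1 ha2
  have ha0 : 0 < a := by linarith
  obtain ⟨e1, he1, H1⟩ := hGC1 a (by linarith) ha2
  obtain ⟨e2, he2, H2⟩ := hGIN a (by linarith) ha2
  obtain ⟨e3, he3, H3⟩ := hTW a ha1 ha2
  obtain ⟨e4, he4, H4⟩ := hTA a ha1 ha2
  refine ⟨min (min e1 e2) (min e3 e4), by positivity, fun e he0 he => ?_⟩
  obtain ⟨hcl, hconv, -, -⟩ := H1 e he0 (he.trans_le ((min_le_left _ _).trans (min_le_left _ _)))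
  obtain ⟨g, hg, hg1, hg2, hg3⟩ :=
    H2 e he0 (he.trans_le ((min_le_left _ _).trans (min_le_right _ _)))
  have htw := H3 e he0 (he.trans_le ((min_le_right _ _).trans (min_le_left _ _)))
  obtain ⟨sp, sm, d, hsm, hspm, hsp, hd, hcp, hcm, hdd, hval⟩ :=
    H4 e he0 (he.trans_le ((min_le_right _ _).trans (min_le_right _ _)))
  obtain ⟨-, -, -, -, -, -, hC2⟩ := hGC2
  have h1a : 0 < 1 - a ^ 2 := by nlinarith
  -- the real numbers
  set tp : ℝ := 1 + (e / a) / (1 - a) with htp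
  set tm : ℝ := -1 + (e / a) / (1 + a) with htm
  have hchip : chi a e 1 = (tp : ℂ) := by
    rw [chi, htp]
    push_cast
    ring
  have hchim : chi a e (-1) = (tm : ℂ) := by
    rw [chi, htm]
    push_cast
    ring
  set κ : ℝ := √(1 - a ^ 2) / a with hκ
  have hκ2 : κ ^ 2 = (1 - a ^ 2) / a ^ 2 := by rw [hκ, div_pow, Real.sq_sqrt h1a.le]
  set A0 : ℝ := (tp - tm) / 2 with hA0
  set μ : ℝ := (tp + tm) / 2 with hμ
  have hdd' : d ^ 2 = A0 ^ 2 - κ ^ 2 := by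
    have h : ((d ^ 2 : ℝ) : ℂ) = ((A0 ^ 2 - κ ^ 2 : ℝ) : ℂ) := by
      rw [hκ2]
      push_cast
      rw [hdd, hchip, hchim, hA0]
      push_cast
      ring
    exact_mod_cast h
  have hl1 : chi a e sp = ((μ + d : ℝ) : ℂ) := by
    rw [hcp, hchip, hchim, hμ]; push_cast; ring
  have hl2 : chi a e sm = ((μ - d : ℝ) : ℂ) := by
    rw [hcm, hchip, hchim, hμ]; push_cast; ring
  have hre : ((chi a e 1 - chi a e (-1)) / 2).re = A0 := by
    rw [hchip, hchim, hA0]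
    have : (((tp : ℂ) - tm) / 2) = (((tp - tm) / 2 : ℝ) : ℂ) := by push_cast; ring
    rw [this, ofReal_re]
  simp only [hre] at hval
  set ρ : ℝ := √(e / (16 * (1 - a ^ 2))) with hρ
  have hρ0 : 0 < ρ := Real.sqrt_pos.2 (by positivity)
  set D : ℝ := A0 / d with hD
  have habs_p : |sp| < 1 := abs_lt.2 ⟨by linarith, hsp⟩
  have habs_m : |sm| < 1 := abs_lt.2 ⟨hsm, by linarith⟩
  -- the value as a function of r
  set Ψ : ℝ → ℝ := fun r => ((1 + D) * Fx ρ r sm - (D - 1) * Fx ρ r sp) / 2 with hΨ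
  have hΨc : ContinuousAt Ψ 1 :=
    ((continuousAt_const.mul (Fx_cont ρ habs_m)).sub
      (continuousAt_const.mul (Fx_cont ρ habs_p))).div_const _
  have hΨ1 : Ψ 1 < -(1 / 100 * (1 - a) ^ (-2 : ℝ) * e ^ (3 / 2 : ℝ)) := by
    have h2 : Ψ 1 ≤ -(a / 20 * (1 - a ^ 2) ^ (-2 : ℝ) * e ^ (3 / 2 : ℝ)) := by
      refine le_trans (le_of_eq ?_) hval
      simp only [hΨ, Fx, one_mul]
    refine h2.trans_lt ?_
    have h1a' : 0 < 1 - a := by linarith
    have h3 : (1 - a ^ 2) ^ (-2 : ℝ) = (1 - a) ^ (-2 : ℝ) * ((1 + a) ^ 2)⁻¹ := by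
      have : (1 : ℝ) - a ^ 2 = (1 - a) * (1 + a) := by ring
      rw [this, Real.mul_rpow (by linarith) (by linarith)]
      congr 1
      rw [Real.rpow_neg (by linarith)]
      norm_num
    rw [h3, neg_lt_neg_iff]
    have h4 : 0 < (1 - a) ^ (-2 : ℝ) := Real.rpow_pos_of_pos h1a' _
    have h5 : 0 < e ^ (3 / 2 : ℝ) := Real.rpow_pos_of_pos he0 _
    have h6 : 1 / 100 < a / 20 * ((1 + a) ^ 2)⁻¹ := by
      rw [← div_eq_mul_inv, lt_div_iff₀ (by positivity)]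
      nlinarith
    have h7 : a / 20 * ((1 - a) ^ (-2 : ℝ) * ((1 + a) ^ 2)⁻¹) * e ^ (3 / 2 : ℝ) =
        (a / 20 * ((1 + a) ^ 2)⁻¹) * (1 - a) ^ (-2 : ℝ) * e ^ (3 / 2 : ℝ) := by ring
    rw [h7]
    gcongr
  have hev : ∀ᶠ r in 𝓝[<] (1 : ℝ), Ψ r < -(1 / 100 * (1 - a) ^ (-2 : ℝ) * e ^ (3 / 2 : ℝ)) :=
    (hΨc.tendsto.mono_left nhdsWithin_le_nhds).eventually (gt_mem_nhds hΨ1)
  have hev2 : ∀ᶠ r in 𝓝[<] (1 : ℝ), r < 1 := self_mem_nhdsWithin
  have hev3 : ∀ᶠ r in 𝓝[<] (1 : ℝ), 0 < r := nhdsWithin_le_nhds (lt_mem_nhds one_pos)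
  obtain ⟨r, hr1, hr2, hr3⟩ := (hev.and (hev2.and hev3)).exists
  have hr4 : 1 < 1 / r := by rw [lt_div_iff₀ hr3]; linarith
  -- the function
  set f : ℂ → ℂ := fun w => Fz ρ r (g w) with hf
  set V : Set ℂ := {w : ℂ | w.re < 1 / a} ∩ g ⁻¹' (ball 0 (1 / r)) with hV
  have hVo : IsOpen V := by
    refine hg.continuousOn.isOpen_inter_preimage ?_ isOpen_ball
    exact isOpen_lt Complex.continuous_re continuous_const
  have hgchi : ∀ z : ℂ, ‖z‖ ≤ 1 → g (chi a e z) = z := by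
    intro z hz
    refine hg2 z ?_ (hg3 z hz)
    have h1 : z.re ≤ 1 := (Complex.re_le_norm z).trans hz
    have h2 : 1 < 1 / a := by rw [lt_div_iff₀ ha0]; linarith
    linarith
  have hsub : C1 a e ⊆ V := by
    rintro _ ⟨z, hz, rfl⟩
    have hz' : ‖z‖ ≤ 1 := by simpa using hz
    refine ⟨hg3 z hz', ?_⟩
    rw [mem_preimage, hgchi z hz', mem_ball, dist_zero_right]
    linarith
  have hfd : DifferentiableOn ℂ f V := by
    refine DifferentiableOn.comp (Fz_diff hρ0 hr3) (hg.mono inter_subset_left) ?_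
    exact fun w hw => hw.2
  have hfC : f '' C1 a e ⊆ C2 := by
    rintro _ ⟨_, ⟨z, hz, rfl⟩, rfl⟩
    have hz' : ‖z‖ ≤ 1 := by simpa using hz
    simp only [hf, hgchi z hz']
    exact Fz_mem hC2 hρ0 hr3 (by linarith)
  have hcomp : IsCompact (C1 a e) := by
    refine (isCompact_closedBall (0 : ℂ) 1).image_of_continuousOn ?_
    intro z hz
    have hz' : ‖z‖ ≤ 1 := by simpa using hz
    have h1 : 1 - (a : ℂ) * z ≠ 0 := by
      intro h
      have h2 : (a : ℂ) * z = 1 := by linear_combination -h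
      have h3 := congrArg norm h2
      rw [norm_mul, Complex.norm_real, Real.norm_eq_abs, abs_of_pos ha0, norm_one] at h3
      nlinarith
    refine ContinuousAt.continuousWithinAt ?_
    unfold chi
    exact ContinuousAt.add continuousAt_id (ContinuousAt.div (by fun_prop) (by fun_prop) h1)
  have hT : ∀ x : E2, ‖x‖ = 1 → inner ℂ x (TT tm κ tp x) ∈ C1 a e := by
    intro x hx
    rw [inner_TT, ← hchip, ← hchim]
    apply htw
    rw [← norm_sq_E2, hx, one_pow]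
  have hT2 : TT tm κ tp * TT tm κ tp = (((μ + d : ℝ) : ℂ) + ((μ - d : ℝ) : ℂ)) • TT tm κ tp -
      (((μ + d : ℝ) : ℂ) * ((μ - d : ℝ) : ℂ)) • 1 := by
    rw [TT_sq]
    have h1 : ((μ + d : ℝ) : ℂ) + ((μ - d : ℝ) : ℂ) = (tm : ℂ) + tp := by
      rw [hμ]; push_cast; ring
    have h2 : ((μ + d : ℝ) : ℂ) * ((μ - d : ℝ) : ℂ) = (tm : ℂ) * tp + (κ : ℂ) ^ 2 := by
      have : (μ + d) * (μ - d) = tm * tp + κ ^ 2 := by
        have : (μ + d) * (μ - d) = μ ^ 2 - d ^ 2 := by ring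
        rw [this, hdd', hμ, hA0]
        ring
      exact_mod_cast this
    rw [h1, h2]
  have hl1m : ((μ + d : ℝ) : ℂ) ∈ C1 a e := by
    rw [← hl1]
    refine ⟨sp, ?_, rfl⟩
    rw [mem_closedBall, dist_zero_right, Complex.norm_real, Real.norm_eq_abs]
    exact habs_p.le
  have hl2m : ((μ - d : ℝ) : ℂ) ∈ C1 a e := by
    rw [← hl2]
    refine ⟨sm, ?_, rfl⟩
    rw [mem_closedBall, dist_zero_right, Complex.norm_real, Real.norm_eq_abs]
    exact habs_m.le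
  have hne : ((μ + d : ℝ) : ℂ) ≠ ((μ - d : ℝ) : ℂ) := by
    intro h
    have : μ + d = μ - d := by exact_mod_cast h
    linarith
  set x0 : E2 := EuclideanSpace.single 0 1 with hx0
  have hx0n : ‖x0‖ = 1 := by simp [hx0]
  have hin : inner ℂ x0 (TT tm κ tp x0) = (tm : ℂ) := by
    rw [inner_TT]
    simp [hx0]
  have hmem := two_mem_WH hcomp hconv (TT tm κ tp) hT hT2 hne
    hl1m hl2m hVo hsub hfd hfC hx0n
  rw [hin] at hmem
  have hf1 : f ((μ + d : ℝ) : ℂ) = ((Fx ρ r sp : ℝ) : ℂ) := by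
    rw [← hl1, hf]
    simp only
    rw [hgchi _ (by rw [Complex.norm_real, Real.norm_eq_abs]; exact habs_p.le), Fz_ofReal]
    rw [abs_mul, abs_of_pos hr3]
    nlinarith [abs_nonneg sp]
  have hf2 : f ((μ - d : ℝ) : ℂ) = ((Fx ρ r sm : ℝ) : ℂ) := by
    rw [← hl2, hf]
    simp only
    rw [hgchi _ (by rw [Complex.norm_real, Real.norm_eq_abs]; exact habs_m.le), Fz_ofReal]
    rw [abs_mul, abs_of_pos hr3]
    nlinarith [abs_nonneg sm]
  have hw : ((f ((μ + d : ℝ) : ℂ) - f ((μ - d : ℝ) : ℂ)) * (tm : ℂ) +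
      (((μ + d : ℝ) : ℂ) * f ((μ - d : ℝ) : ℂ) - ((μ - d : ℝ) : ℂ) * f ((μ + d : ℝ) : ℂ))) /
      (((μ + d : ℝ) : ℂ) - ((μ - d : ℝ) : ℂ)) = ((Ψ r : ℝ) : ℂ) := by
    rw [hf1, hf2]
    have h1 : ((Fx ρ r sp - Fx ρ r sm) * tm + ((μ + d) * Fx ρ r sm - (μ - d) * Fx ρ r sp)) /
        ((μ + d) - (μ - d)) = Ψ r := by
      have h2 : tm = μ - A0 := by rw [hμ, hA0]; ring
      simp only [hΨ, hD]
      rw [h2]
      have hd' : d ≠ 0 := hd.ne'
      have h3 : (μ + d) - (μ - d) = 2 * d := by ring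
      rw [h3]
      field_simp
      ring
    rw [← h1]
    push_cast
    ring
  rw [hw] at hmem
  exact ⟨_, hmem, ofReal_im _, by rw [ofReal_re]; exact hr1.le⟩

end C3N.H37
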