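import Pool.Agent.Lib.MP_c3d375_an.Own.Far
import Pool.Agent.Lib.MP_c3d375_an.Own.Tip
import Pool.Agent.Lib.MP_c3d375_an.Neg.H26.All

/-!
# The theorem for every set between the 2 × 2 matrices and the closure
-/

open Complex Metric Set Filter Topology ComplexConjugate Pool.Agent.Lib.MP_c3d375_an

namespace C3N.Own

/-- the upper bound for the closure of `W` -/
theorem ub_cl (ubc : UBCStatement) (red : REDStatement) :
    ∃ C0 : ℝ, 0 < C0 ∧ ∀ a : ℝ, 1 / 2 ≤ a → a < 1 → ∀ Y : ℝ, C0 * (1 - a) ^ (-(5 / 4 : ℝ)) ≤ Y →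
    ∀ δ : ℝ, 0 < δ → ∃ e0 : ℝ, 0 < e0 ∧ ∀ e : ℝ, 0 < e → e < e0 →
    ∀ w ∈ closure (W (C1 a e) C2), w.im = 3 / 2 * Y * e → -(δ * e ^ (3 / 2 : ℝ)) ≤ w.re := by
  obtain ⟨C0, hC0, hub⟩ := ubc
  refine ⟨C0, hC0, fun a ha ha1 Y hY δ hδ => ?_⟩
  have h1a : 0 < 1 - a := by linarith
  have hY0 : 0 < Y := lt_of_lt_of_le (by positivity) hY
  obtain ⟨e1, he1, hub⟩ := hub a ha ha1 Y hY (δ / 2) (by positivity)
  obtain ⟨e2, he2, hred⟩ := red a ha ha1
  refine ⟨min e1 e2, lt_min he1 he2, fun e he hlt w hw him => ?_⟩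
  set E : ℝ := e ^ (3 / 2 : ℝ) with hE
  have hE0 : 0 < E := by positivity
  set ε : ℝ := min (Y * e / 4) (δ * E / 4) with hε
  have hYe : 0 < Y * e := by positivity
  have hδE : 0 < δ * E := by positivity
  have hε0 : 0 < ε := lt_min (by positivity) (by positivity)
  have hε1 : ε ≤ Y * e / 4 := min_le_left _ _
  have hε2 : ε ≤ δ * E / 4 := min_le_right _ _
  obtain ⟨w', hw', hww'⟩ := Metric.mem_closure_iff.1 hw (ε / 2) (by positivity)
  obtain ⟨H, i1, i2, i3, r, hr, hr', S, q, x, hq, hx, hwx'⟩ :=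
    hred e he (hlt.trans_le (min_le_right _ _)) w' hw' (ε / 2) (by positivity)
  set z : ℂ := inner ℂ x (S.Φ (ff q) x) with hz
  have hwx : ‖z - w‖ ≤ ε := by
    have h0 : z - w = (z - w') + (w' - w) := by ring
    rw [dist_comm, dist_eq_norm] at hww'
    rw [h0]
    refine (norm_add_le _ _).trans ?_
    linarith
  have h1 : |z.im - w.im| ≤ ε := by
    rw [← Complex.sub_im]
    exact (Complex.abs_im_le_norm _).trans hwx
  have h2 : |z.re - w.re| ≤ ε := by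
    rw [← Complex.sub_re]
    exact (Complex.abs_re_le_norm _).trans hwx
  rw [abs_le] at h1 h2
  have h3 : 0 ≤ z.im := by rw [him] at h1; linarith [h1.1]
  have h4 := hub e he (hlt.trans_le (min_le_left _ _)) H r hr hr' S q hq x hx
    (by rw [← hz, abs_of_nonneg h3]; rw [him] at h1; linarith [h1.1])
    (by rw [← hz, abs_of_nonneg h3]; rw [him] at h1; linarith [h1.2])
  rw [← hz, ← hE] at h4
  linarith [h2.1, h2.2]

/-- all the facts -/
theorem main : ∃ a : ℝ, 19 / 20 ≤ a ∧ a < 1 ∧ ∃ e₀ : ℝ, 0 < e₀ ∧ ∀ e : ℝ, 0 < e → e < e₀ →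
    IsCompact (C1 a e) ∧ Convex ℝ (C1 a e) ∧ (interior (C1 a e)).Nonempty ∧
    IsCompact C2 ∧ Convex ℝ C2 ∧ (interior C2).Nonempty ∧
    ∀ S : Set ℂ, WH E2 (C1 a e) C2 ⊆ S → S ⊆ closure (W (C1 a e) C2) → ¬ Convex ℝ S := by
  have gc1 := C3N.H19.gc1_st
  have gc2 := C3N.H19.gc2_st
  have gin := C3N.H19.gin_st
  have p1 := C3N.H85.p1_st
  have gm := C3N.H65.gm_st
  have nu := C3N.H14.nu_st
  have cru := C3N.H65.cru_st p1 gm nu
  have cer := C3N.H16.cer_st p1 cru nu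
  have mi := C3N.H64.mi_st p1 gm nu
  have ker := C3N.H56.ker_st p1 nu
  have bnd := C3N.H97.bnd_st p1 nu
  have pb := C3N.H91.pb_st nu
  have pa := C3N.H91.pa_st nu
  have kk := C3N.H85.kk_st C3N.H85.inv_st
  have ce := C3N.H38.ce_st kk C3N.H38Rx.rx_st
  have clt := C3N.H30.clt_st ce
  have zn := C3N.H54.zn_st C3N.H59.lp_st
  have sya := C3N.H5.sya_st gc1 gin
  have pos := C3N.H75.pos_st gc1
  have krn := C3N.H75.krn_st gc1
  have red := C3N.H19.red_st gc1 gc2 sya C3N.H99.cal_st pos krn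
  have ubc := C3N.H15.ubc_st p1 cru cer mi zn clt ker bnd pb pa nu
  have tip := C3N.H37.tip_st2 gc1 gin gc2 (C3N.H69.tw_st gc1) (C3N.H47.ta_st gin)
  have far := Pool.Agent.Lib.MP_c3d375_an.FarX.far_st2 gc1
  obtain ⟨C0, hC0, hub⟩ := ub_cl ubc red
  set x : ℝ := max 3 (3000 * C0) with hx
  have hx3 : 3 ≤ x := le_max_left _ _
  have hxC : 3000 * C0 ≤ x := le_max_right _ _
  have hx0 : 0 < x := by linarith
  have hx12 : 20 ≤ x ^ 12 := by
    calc (20 : ℝ) ≤ 3 ^ 12 := by norm_num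
      _ ≤ x ^ 12 := by gcongr
  set a : ℝ := 1 - (x ^ 12)⁻¹ with ha
  have h1a : 1 - a = (x ^ 12)⁻¹ := by rw [ha]; ring
  have hinv : (x ^ 12)⁻¹ ≤ (20 : ℝ)⁻¹ := by gcongr
  have hinv0 : 0 < (x ^ 12)⁻¹ := by positivity
  have ha1 : a < 1 := by linarith
  have ha2 : 19 / 20 ≤ a := by rw [ha]; norm_num at hinv ⊢; linarith
  have ha3 : 1 / 2 ≤ a := by linarith
  have r1 : (1 - a) ^ (-(5 / 4 : ℝ)) = x ^ 15 := by
    rw [h1a]; exact C3N.H26.rpow_aux hx0 (by norm_num)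
  have r2 : (1 - a) ^ (-(4 / 3 : ℝ)) = x ^ 16 := by
    rw [h1a]; exact C3N.H26.rpow_aux hx0 (by norm_num)
  have r3 : (1 - a) ^ (-2 : ℝ) = x ^ 24 := by
    rw [h1a]; exact C3N.H26.rpow_aux hx0 (by norm_num)
  set δ : ℝ := x ^ 24 / 400 with hδ
  obtain ⟨e1, he1, hub⟩ := hub a ha3 ha1 (C0 * x ^ 15) (by rw [r1]) δ (by positivity)
  obtain ⟨e2, he2, hgc1⟩ := gc1 a ha3 ha1
  obtain ⟨e3, he3, hfar⟩ := far a ha3 ha1
  obtain ⟨e4, he4, htip⟩ := tip a ha2 ha1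
  refine ⟨a, ha2, ha1, min (min e1 e2) (min e3 e4), lt_min (lt_min he1 he2) (lt_min he3 he4),
    fun e hee hem => ?_⟩
  have h1 : e < e1 := hem.trans_le ((min_le_left _ _).trans (min_le_left _ _))
  have h2 : e < e2 := hem.trans_le ((min_le_left _ _).trans (min_le_right _ _))
  have h3 : e < e3 := hem.trans_le ((min_le_right _ _).trans (min_le_left _ _))
  have h4 : e < e4 := hem.trans_le ((min_le_right _ _).trans (min_le_right _ _))
  obtain ⟨g1, g2, -, g5⟩ := hgc1 e hee h2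
  obtain ⟨g3, g4, g6, g7, -⟩ := gc2
  refine ⟨Pool.Agent.Lib.MP_c3d375_an.FarX.isCompact_C1 (by linarith) ha1 e, g2, ?_, g6, g4,
    ⟨_, g7⟩, ?_⟩
  · rw [g5]
    exact ⟨_, 0, mem_ball_self one_pos, rfl⟩
  intro S hS1 hS2 hconv
  obtain ⟨w1, hw1, hw1i, hw1r⟩ := hfar e hee h3
  obtain ⟨w0, hw0, hw0i, hw0r⟩ := htip e hee h4
  rw [r2] at hw1i
  rw [r3] at hw1r hw0r
  set E : ℝ := e ^ (3 / 2 : ℝ) with hE
  have hE0 : 0 < E := by positivity
  -- the chord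
  set t : ℝ := 3 / 2 * C0 / x with ht
  have ht0 : 0 < t := by positivity
  have ht1 : t ≤ 1 / 2000 := by
    rw [ht, div_le_iff₀ hx0]
    linarith
  have hmem : (1 - t) • w0 + t • w1 ∈ closure (W (C1 a e) C2) :=
    hS2 (hconv (hS1 hw0) (hS1 hw1) (by linarith) ht0.le (by ring))
  have him : ((1 - t) • w0 + t • w1).im = 3 / 2 * (C0 * x ^ 15) * e := by
    simp only [Complex.add_im, Complex.real_smul, Complex.im_ofReal_mul, hw0i, hw1i, ht]
    field_simp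
    ring
  have hre : ((1 - t) • w0 + t • w1).re = (1 - t) * w0.re + t * w1.re := by
    simp only [Complex.add_re, Complex.real_smul, Complex.re_ofReal_mul]
  have h5 := hub e hee h1 _ hmem him
  rw [hre] at h5
  have h6 : (1 - t) * w0.re ≤ (1 - t) * -(1 / 100 * x ^ 24 * E) :=
    mul_le_mul_of_nonneg_left hw0r (by linarith)
  have h7 : t * w1.re ≤ t * (8 * x ^ 24 * E) := mul_le_mul_of_nonneg_left hw1r ht0.le
  have hX : 0 < x ^ 24 * E := by positivity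
  have h8 : -(δ * E) ≤ (-(1 - t) / 100 + 8 * t) * (x ^ 24 * E) := by
    calc -(δ * E) ≤ _ := h5
      _ ≤ (1 - t) * -(1 / 100 * x ^ 24 * E) + t * (8 * x ^ 24 * E) := by linarith
      _ = _ := by ring
  have h9 : (-(1 - t) / 100 + 8 * t) * (x ^ 24 * E) ≤ -(1 / 200) * (x ^ 24 * E) :=
    mul_le_mul_of_nonneg_right (by linarith) hX.le
  have h10 : -(δ * E) = -(1 / 400) * (x ^ 24 * E) := by rw [hδ]; ring
  nlinarith

end C3N.Own
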