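import Pool.Agent.Lib.MP_c3d375_an.Spec
import Pool.Agent.Lib.MP_c3d375_an.Own.Defs

/-!
# The textbook functional calculus

`IsCalculus T V Φ`: `Φ` is a unital algebra homomorphism on the functions holomorphic on `V`, with
`Φ z = T`, continuous for locally uniform convergence on `V`. The set `WT C₁ C₂` is defined as `W`,
but with `f(T) = Φ f` for such a `Φ`. Then `WT C₁ C₂ = W C₁ C₂` if `C₁` is closed and convex.
-/

open Complex Metric Set Filter Topology Polynomial

namespace Pool.Agent.Lib.MP_c3d375_an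

/-! ### Joint continuity of the difference quotient -/

theorem continuousOn_dslope_prod {h : ℂ → ℂ} {V : Set ℂ} (hV : IsOpen V)
    (hh : DifferentiableOn ℂ h V) :
    ContinuousOn (fun p : ℂ × ℂ => dslope h p.1 p.2) (V ×ˢ V) := by
  rintro ⟨a, b⟩ ⟨ha, hb⟩
  simp only at ha hb
  refine ContinuousAt.continuousWithinAt ?_
  have hca : ContinuousAt h a := (hh.differentiableAt (hV.mem_nhds ha)).continuousAt
  have hcb : ContinuousAt h b := (hh.differentiableAt (hV.mem_nhds hb)).continuousAt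
  by_cases hab : a = b
  · subst hab
    have han : AnalyticAt ℂ h a := hh.analyticAt (hV.mem_nhds ha)
    have hs : HasStrictDerivAt h (deriv h a) a := han.hasStrictDerivAt
    have hd : ContinuousAt (deriv h) a := han.deriv.continuousAt
    rw [Metric.continuousAt_iff']
    intro ε hε
    have h1 := (hs.hasStrictFDerivAt.isLittleO).bound (half_pos hε)
    have h2 : ∀ᶠ p : ℂ × ℂ in 𝓝 (a, a), dist (deriv h p.1) (deriv h a) < ε := by
      have := (hd.comp (x := ((a, a) : ℂ × ℂ)) (f := Prod.fst) continuousAt_fst)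
      exact (Metric.tendsto_nhds.1 this) ε hε
    filter_upwards [h1, h2] with p hp hp2
    simp only [dslope_same]
    by_cases hpp : p.1 = p.2
    · rw [← hpp, dslope_same]
      exact hp2
    · rw [dslope_of_ne _ (Ne.symm hpp), slope_def_field, dist_eq_norm]
      have h3 : p.2 - p.1 ≠ 0 := sub_ne_zero.2 (Ne.symm hpp)
      have h4 : (h p.2 - h p.1) / (p.2 - p.1) - deriv h a =
          -(h p.1 - h p.2 - (p.1 - p.2) * deriv h a) / (p.2 - p.1) := by
        field_simp
        ring
      rw [h4, norm_div, norm_neg]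
      have hp' : ‖h p.1 - h p.2 - (p.1 - p.2) * deriv h a‖ ≤ ε / 2 * ‖p.1 - p.2‖ := hp
      have h5 : 0 < ‖p.2 - p.1‖ := norm_pos_iff.2 h3
      rw [div_lt_iff₀ h5]
      refine hp'.trans_lt ?_
      rw [norm_sub_rev p.1 p.2]
      nlinarith
  · have h1 : (fun p : ℂ × ℂ => dslope h p.1 p.2) =ᶠ[𝓝 (a, b)]
        fun p => (h p.2 - h p.1) / (p.2 - p.1) := by
      have h2 : ∀ᶠ p : ℂ × ℂ in 𝓝 (a, b), p.1 ≠ p.2 :=
        (isOpen_ne_fun continuous_fst continuous_snd).mem_nhds hab
      filter_upwards [h2] with p hp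
      rw [dslope_of_ne _ (Ne.symm hp), slope_def_field]
    refine ContinuousAt.congr ?_ h1.symm
    have h3 : ContinuousAt (fun p : ℂ × ℂ => h p.1) (a, b) :=
      ContinuousAt.comp (f := Prod.fst) (x := (a, b)) hca continuousAt_fst
    have h4 : ContinuousAt (fun p : ℂ × ℂ => h p.2) (a, b) :=
      ContinuousAt.comp (f := Prod.snd) (x := (a, b)) hcb continuousAt_snd
    exact (h4.sub h3).div (by fun_prop) (sub_ne_zero.2 (Ne.symm hab))

theorem tendsto_dslope {h : ℂ → ℂ} {V : Set ℂ} (hV : IsOpen V)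
    (hh : DifferentiableOn ℂ h V) {w₀ : ℂ} (hw₀ : w₀ ∈ V) {u : ℕ → ℂ} (hu : ∀ n, u n ∈ V)
    (hlim : Tendsto u atTop (𝓝 w₀)) :
    TendstoLocallyUniformlyOn (fun n => dslope h (u n)) (dslope h w₀) atTop V := by
  rw [tendstoLocallyUniformlyOn_iff_forall_isCompact hV]
  intro K hKV hK s hs
  have hc : ContinuousOn (Function.uncurry (dslope h)) (V ×ˢ K) :=
    (continuousOn_dslope_prod hV hh).mono (prod_mono_right hKV)
  obtain ⟨v, hv, hvs⟩ := hK.mem_uniformity_of_prod hc hw₀ (symm_le_uniformity hs)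
  have h1 : Tendsto u atTop (𝓝[V] w₀) :=
    tendsto_nhdsWithin_iff.2 ⟨hlim, Eventually.of_forall hu⟩
  filter_upwards [h1 hv] with n hn z hz
  exact hvs _ hn z hz

/-- the identity of the second order difference quotients -/
theorem dslope_dslope {g : ℂ → ℂ} {w₀ w z : ℂ} (hw : w ≠ w₀) (hgw : DifferentiableAt ℂ g w)  :
    dslope g w z - dslope g w₀ z = (w - w₀) * dslope (dslope g w₀) w z := by
  have h0 : w - w₀ ≠ 0 := sub_ne_zero.2 hw
  by_cases hzw : z = w
  · subst hzw
    rw [dslope_same, dslope_same, dslope_of_ne _ hw, slope_def_field]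
    have h1 : HasDerivAt (dslope g w₀) ((deriv g z * (z - w₀) - (g z - g w₀) * 1) / (z - w₀) ^ 2) z := by
      have h2 : (dslope g w₀) =ᶠ[𝓝 z] fun y => (g y - g w₀) / (y - w₀) := by
        filter_upwards [isOpen_ne.mem_nhds hw] with y hy
        rw [dslope_of_ne _ hy, slope_def_field]
      refine HasDerivAt.congr_of_eventuallyEq ?_ h2
      exact (hgw.hasDerivAt.sub_const _).div ((hasDerivAt_id z).sub_const _) h0
    rw [h1.deriv]
    field_simp
    try ring
  · rw [dslope_of_ne (dslope g w₀) hzw, slope_def_field]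
    have h3 : z - w ≠ 0 := sub_ne_zero.2 hzw
    by_cases hz0 : z = w₀
    · subst hz0
      rw [dslope_of_ne _ hzw, slope_def_field, dslope_same, dslope_of_ne _ hw, slope_def_field]
      have h3' : w - z ≠ 0 := h0
      field_simp
      ring
    · have h4 : z - w₀ ≠ 0 := sub_ne_zero.2 hz0
      rw [dslope_of_ne _ hzw, slope_def_field, dslope_of_ne _ hz0, slope_def_field,
        dslope_of_ne _ hw, slope_def_field]
      field_simp
      ring

/-! ### The calculus -/

section abs

variable {𝔸 : Type*} [NormedRing 𝔸] [NormedAlgebra ℂ 𝔸]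

/-- The abstract uniqueness argument (as in `eq_zero_of_tendsto`). -/
theorem eq_zero_abs [CompleteSpace 𝔸] [Nontrivial 𝔸] {T E : 𝔸} {G : Set ℂ} (hG : IsOpen G)
    (hTG : spectrum ℂ T ⊆ G) (hGc : IsCompact (closure G)) {F : ℕ → ℂ → 𝔸} {g : ℕ → ℂ → ℂ}
    {e : ℕ → 𝔸} (hF : ∀ n, ∀ z ∈ closure G, DifferentiableAt ℂ (F n) z)
    (hFg : ∀ n, ∀ z ∈ closure G, (algebraMap ℂ 𝔸 z - T) * F n z = algebraMap ℂ 𝔸 (g n z) - e n)
    (hg : TendstoUniformlyOn g (fun _ => 0) atTop (closure G))
    (he : Tendsto e atTop (𝓝 E)) : E = 0 := by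
  have hfr : frontier G ⊆ closure G := frontier_subset_closure
  have hfrc : IsCompact (frontier G) := hGc.of_isClosed_subset isClosed_frontier hfr
  have hfrs : ∀ z ∈ frontier G, z ∉ spectrum ℂ T := by
    intro z hz hzs
    have := hTG hzs
    rw [hG.frontier_eq] at hz
    exact hz.2 this
  have hres : ∀ z, z ∉ spectrum ℂ T → DifferentiableAt ℂ (resolvent T) z := by
    intro z hz
    exact (spectrum.hasDerivAt_resolvent_const_left (spectrum.notMem_iff.1 hz)).differentiableAt
  have hFres : ∀ n, ∀ z ∈ closure G, z ∉ spectrum ℂ T →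
      F n z = resolvent T z * (algebraMap ℂ 𝔸 (g n z) - e n) := by
    intro n z hz hzs
    rw [← hFg n z hz, ← mul_assoc]
    have : resolvent T z * (algebraMap ℂ 𝔸 z - T) = 1 :=
      Ring.inverse_mul_cancel _ (spectrum.notMem_iff.1 hzs)
    rw [this, one_mul]
  have hrc : ContinuousOn (resolvent T) (frontier G) := fun z hz =>
    (hres z (hfrs z hz)).continuousAt.continuousWithinAt
  obtain ⟨K, hK⟩ := hfrc.exists_bound_of_continuousOn hrc
  have hK0 : 0 ≤ max K 0 := le_max_right _ _
  have hK' : ∀ z ∈ frontier G, ‖resolvent T z‖ ≤ max K 0 := fun z hz =>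
    (hK z hz).trans (le_max_left _ _)
  -- uniform Cauchy on closure G
  have hcau : UniformCauchySeqOn F atTop (closure G) := by
    rw [Metric.uniformCauchySeqOn_iff]
    intro ε hε
    rw [Metric.tendstoUniformlyOn_iff] at hg
    set δ : ℝ := ε / (4 * (max K 0 + 1) * (‖(1 : 𝔸)‖ + 1)) with hδ
    have hδ0 : 0 < δ := by positivity
    obtain ⟨N₁, hN₁⟩ := eventually_atTop.1 (hg δ hδ0)
    have hcs := he.cauchySeq
    rw [Metric.cauchySeq_iff] at hcs
    obtain ⟨N₂, hN₂⟩ := hcs (ε / (4 * (max K 0 + 1))) (by positivity)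
    refine ⟨max N₁ N₂, fun m hm n hn z hz => ?_⟩
    rw [dist_eq_norm]
    have hd : DiffContOnCl ℂ (fun z => F m z - F n z) G :=
      ⟨fun z hz => ((hF m z (subset_closure hz)).sub
        (hF n z (subset_closure hz))).differentiableWithinAt,
        fun z hz => ((hF m z hz).sub (hF n z hz)).continuousAt.continuousWithinAt⟩
    have hb : ∀ z ∈ frontier G, ‖F m z - F n z‖ ≤ 3 * ε / 4 := by
      intro z hz
      have hzs := hfrs z hz
      have hzU : z ∈ closure G := hfr hz
      rw [hFres _ _ hzU hzs, hFres _ _ hzU hzs, ← mul_sub]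
      have e1 := hN₁ m ((le_max_left _ _).trans hm) z hzU
      have e2 := hN₁ n ((le_max_left _ _).trans hn) z hzU
      rw [dist_comm, dist_zero_right] at e1 e2
      have e3 := hN₂ m ((le_max_right _ _).trans hm) n ((le_max_right _ _).trans hn)
      rw [dist_eq_norm] at e3
      have e4 : ‖(algebraMap ℂ 𝔸 (g m z) - e m) - (algebraMap ℂ 𝔸 (g n z) - e n)‖
          ≤ δ * ‖(1 : 𝔸)‖ + δ * ‖(1 : 𝔸)‖ + ε / (4 * (max K 0 + 1)) := by
        calc _ = ‖(algebraMap ℂ 𝔸 (g m z) - algebraMap ℂ 𝔸 (g n z)) -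
            (e m - e n)‖ := by congr 1; abel
          _ ≤ ‖algebraMap ℂ 𝔸 (g m z) - algebraMap ℂ 𝔸 (g n z)‖ +
            ‖e m - e n‖ := norm_sub_le _ _
          _ ≤ (‖algebraMap ℂ 𝔸 (g m z)‖ + ‖algebraMap ℂ 𝔸 (g n z)‖) +
            ‖e m - e n‖ := by gcongr; exact norm_sub_le _ _
          _ ≤ _ := by
            rw [norm_algebraMap, norm_algebraMap]
            gcongr
      have e5 : δ * ‖(1 : 𝔸)‖ ≤ ε / (4 * (max K 0 + 1)) := by
        rw [hδ, div_mul_eq_mul_div, div_le_div_iff₀ (by positivity) (by positivity)]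
        have : 0 ≤ ε * (4 * (max K 0 + 1)) := by positivity
        nlinarith [norm_nonneg (1 : 𝔸)]
      calc ‖resolvent T z * _‖ ≤ ‖resolvent T z‖ * _ := norm_mul_le _ _
        _ ≤ max K 0 * (ε / (4 * (max K 0 + 1)) + ε / (4 * (max K 0 + 1))
            + ε / (4 * (max K 0 + 1))) := by
            gcongr
            · exact hK' z hz
            · exact e4.trans (by gcongr)
        _ ≤ (max K 0 + 1) * (ε / (4 * (max K 0 + 1)) + ε / (4 * (max K 0 + 1))
            + ε / (4 * (max K 0 + 1))) := by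
            gcongr
            linarith
        _ = 3 * ε / 4 := by field_simp; ring
    have := Complex.norm_le_of_forall_mem_frontier_norm_le
      (hGc.isBounded.subset subset_closure) hd hb hz
    refine this.trans_lt (by linarith)
  have hlim : ∀ z ∈ closure G, ∃ r, Tendsto (fun n => F n z) atTop (𝓝 r) := fun z hz =>
    cauchySeq_tendsto_of_complete (hcau.cauchySeq hz)
  choose! r hr using hlim
  have hunif : TendstoUniformlyOn F r atTop (closure G) :=
    hcau.tendstoUniformlyOn_of_tendsto hr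
  have hrd : DifferentiableOn ℂ r G :=
    (hunif.mono subset_closure).tendstoLocallyUniformlyOn.differentiableOn
      (Eventually.of_forall fun n z hz => (hF n z (subset_closure hz)).differentiableWithinAt) hG
  have hrR : ∀ z ∈ G, z ∉ spectrum ℂ T → r z = - (resolvent T z * E) := by
    intro z hz hzs
    refine tendsto_nhds_unique (hr z (subset_closure hz)) ?_
    have h0 : Tendsto (fun n => g n z) atTop (𝓝 0) :=
      hg.tendsto_at (subset_closure hz)
    have h1 : Tendsto (fun n => resolvent T z * (algebraMap ℂ 𝔸 (g n z) - e n))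
        atTop (𝓝 (resolvent T z * (algebraMap ℂ 𝔸 0 - E))) := by
      refine Tendsto.const_mul _ (Tendsto.sub ?_ he)
      exact ((algebraMapCLM ℂ 𝔸).continuous.tendsto 0).comp h0
    rw [map_zero, zero_sub, mul_neg] at h1
    refine h1.congr fun n => ?_
    rw [hFres _ _ (subset_closure hz) hzs]
  classical
  set Q : ℂ → 𝔸 := fun z => if z ∈ G then r z else - (resolvent T z * E) with hQ
  have hQd : Differentiable ℂ Q := by
    intro z
    by_cases hz : z ∈ G
    · have : Q =ᶠ[𝓝 z] r := by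
        filter_upwards [hG.mem_nhds hz] with w hw
        simp [hQ, hw]
      exact ((hrd z hz).differentiableAt (hG.mem_nhds hz)).congr_of_eventuallyEq this
    · have hzs : z ∉ spectrum ℂ T := fun h => hz (hTG h)
      have : Q =ᶠ[𝓝 z] fun z => - (resolvent T z * E) := by
        filter_upwards [(spectrum.isClosed T).isOpen_compl.mem_nhds hzs] with w hw
        by_cases hwG : w ∈ G
        · simp only [hQ, hwG, if_true]
          exact hrR w hwG hw
        · simp [hQ, hwG]
      refine DifferentiableAt.congr_of_eventuallyEq ?_ this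
      exact ((hres z hzs).mul_const E).neg
  have hQ0 : Tendsto Q (cocompact ℂ) (𝓝 0) := by
    have h1 : Tendsto (fun z => - (resolvent T z * E)) (cocompact ℂ) (𝓝 0) := by
      have := (spectrum.resolvent_tendsto_cobounded (𝕜 := ℂ) T)
      rw [Metric.cobounded_eq_cocompact] at this
      simpa using (this.mul_const E).neg
    refine h1.congr' ?_
    have h2 : (closure G)ᶜ ∈ cocompact ℂ := hGc.compl_mem_cocompact
    filter_upwards [h2] with z hz
    have : z ∉ G := fun h => hz (subset_closure h)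
    simp [hQ, this]
  have hQ1 : ∀ z, Q z = 0 := fun z => hQd.apply_eq_of_tendsto_cocompact z hQ0
  -- pick a point outside G and outside the spectrum
  obtain ⟨z, hz⟩ : ∃ z : ℂ, z ∉ closure G := by
    by_contra hcon
    push Not at hcon
    have : closure G = univ := eq_univ_of_forall hcon
    rw [this] at hGc
    exact noncompact_univ ℂ hGc
  have hzG : z ∉ G := fun h => hz (subset_closure h)
  have hzs : z ∉ spectrum ℂ T := fun h => hzG (hTG h)
  have h1 : resolvent T z * E = 0 := by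
    have := hQ1 z
    simp only [hQ, hzG, if_false, neg_eq_zero] at this
    exact this
  have h2 : (algebraMap ℂ 𝔸 z - T) * resolvent T z = 1 :=
    Ring.mul_inverse_cancel _ (spectrum.notMem_iff.1 hzs)
  calc E = (algebraMap ℂ 𝔸 z - T) * resolvent T z * E := by rw [h2, one_mul]
    _ = 0 := by rw [mul_assoc, h1, mul_zero]

end abs

variable {H : Type*} [NormedAddCommGroup H] [InnerProductSpace ℂ H] {T : H →L[ℂ] H} {V : Set ℂ}
  {Φ : (ℂ → ℂ) → (H →L[ℂ] H)}

namespace IsCalculus

theorem congr (hΦ : IsCalculus T V Φ) {g h : ℂ → ℂ} (hg : DifferentiableOn ℂ g V)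
    (hh : DifferentiableOn ℂ h V) (hgh : EqOn g h V) : Φ g = Φ h := by
  have h1 := hΦ.cont (fun _ => g) h (fun _ => hg) hh (by
    refine TendstoUniformlyOn.tendstoLocallyUniformlyOn ?_
    rw [Metric.tendstoUniformlyOn_iff]
    intro ε hε
    filter_upwards with n z hz
    rw [hgh hz, dist_self]
    exact hε)
  exact tendsto_nhds_unique tendsto_const_nhds h1

theorem const (hΦ : IsCalculus T V Φ) (c : ℂ) : Φ (fun _ => c) = c • 1 := by
  have h1 := hΦ.smul c (fun _ => 1) (differentiableOn_const _)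
  simp only [mul_one] at h1
  rw [h1, hΦ.one]

theorem sub (hΦ : IsCalculus T V Φ) {g h : ℂ → ℂ} (hg : DifferentiableOn ℂ g V)
    (hh : DifferentiableOn ℂ h V) : Φ (fun z => g z - h z) = Φ g - Φ h := by
  have h1 := hΦ.add g (fun z => (-1) * h z) hg (hh.const_mul _)
  rw [hΦ.smul _ _ hh] at h1
  have h2 : (fun z => g z - h z) = fun z => g z + (-1) * h z := by
    funext z; ring
  rw [h2, h1, neg_one_smul, sub_eq_add_neg]

theorem poly (hΦ : IsCalculus T V Φ) (p : ℂ[X]) : Φ (fun z => p.eval z) = aeval T p := by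
  induction p using Polynomial.induction_on with
  | C a =>
    simp only [eval_C, aeval_C]
    rw [hΦ.const, Algebra.algebraMap_eq_smul_one]
  | add p q hp hq =>
    have h := hΦ.add _ _ p.differentiable.differentiableOn q.differentiable.differentiableOn
    rw [hp, hq] at h
    rw [map_add, ← h]
    congr 1
    funext z
    exact eval_add
  | monomial n a h =>
    have h1 := hΦ.mul (fun z => (C a * X ^ n : ℂ[X]).eval z) (fun z => z)
      (C a * X ^ n : ℂ[X]).differentiable.differentiableOn differentiableOn_id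
    rw [h, hΦ.id] at h1
    rw [pow_succ, ← mul_assoc, map_mul, aeval_X, ← h1]
    congr 1
    funext z
    rw [eval_mul, eval_X]

theorem hasDerivAt (hΦ : IsCalculus T V Φ) (hV : IsOpen V) {g : ℂ → ℂ}
    (hg : DifferentiableOn ℂ g V) {w₀ : ℂ} (hw₀ : w₀ ∈ V) :
    HasDerivAt (fun w => Φ (dslope g w)) (Φ (dslope (dslope g w₀) w₀)) w₀ := by
  have hd : ∀ {k : ℂ → ℂ} {w : ℂ}, DifferentiableOn ℂ k V → w ∈ V →
      DifferentiableOn ℂ (dslope k w) V := fun hk hw =>
    (Complex.differentiableOn_dslope (hV.mem_nhds hw)).2 hk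
  rw [hasDerivAt_iff_tendsto_slope]
  refine tendsto_of_seq_tendsto fun u hu => ?_
  have hu1 : Tendsto u atTop (𝓝 w₀) := hu.mono_right nhdsWithin_le_nhds
  have hu2 : ∀ᶠ n in atTop, u n ≠ w₀ := hu.eventually self_mem_nhdsWithin
  have hu3 : ∀ᶠ n in atTop, u n ∈ V := hu1.eventually (hV.mem_nhds hw₀)
  obtain ⟨N, hN⟩ := eventually_atTop.1 (hu2.and hu3)
  rw [← tendsto_add_atTop_iff_nat N]
  have h1 : Tendsto (fun n => u (n + N)) atTop (𝓝 w₀) := (tendsto_add_atTop_iff_nat N).2 hu1
  have h2 := hΦ.cont (fun n => dslope (dslope g w₀) (u (n + N))) (dslope (dslope g w₀) w₀)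
    (fun n => hd (hd hg hw₀) (hN (n + N) (by omega)).2) (hd (hd hg hw₀) hw₀)
    (tendsto_dslope hV (hd hg hw₀) hw₀ (fun n => (hN (n + N) (by omega)).2) h1)
  refine h2.congr fun n => ?_
  obtain ⟨h3, h4⟩ := hN (n + N) (by omega)
  set w := u (n + N) with hw
  have h5 : w - w₀ ≠ 0 := sub_ne_zero.2 h3
  have h6 := hΦ.smul (w - w₀) _ (hd (hd hg hw₀) h4)
  rw [Function.comp_apply, ← hw, slope_def_module, ← hΦ.sub (hd hg h4) (hd hg hw₀), eq_inv_smul_iff₀ h5, ← h6]
  congr 1
  funext z
  rw [dslope_dslope h3 (hg.differentiableAt (hV.mem_nhds h4))]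

end IsCalculus

/-- a textbook calculus agrees with the calculus defined by polynomial approximation -/
theorem IsCalculus.eq_of_calc [CompleteSpace H] (hΦ : IsCalculus T V Φ) (hV : IsOpen V)
    (hTV : spectrum ℂ T ⊆ V) {f : ℂ → ℂ} (hf : DifferentiableOn ℂ f V) {U : Set ℂ}
    (hU : IsOpen U) (hTU : spectrum ℂ T ⊆ U) {A : H →L[ℂ] H} (hA : Calc T U f A) : Φ f = A := by
  rcases subsingleton_or_nontrivial H with hs | hn
  · exact Subsingleton.elim _ _
  obtain ⟨p, hp1, hp2⟩ := hA
  obtain ⟨G, hG, hTG, hGU, hGc⟩ :=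
    exists_open_between_and_isCompact_closure (spectrum.isCompact T) (hU.inter hV)
      (subset_inter hTU hTV)
  have hgd : ∀ n, DifferentiableOn ℂ (fun z => f z - (p n).eval z) V := fun n =>
    hf.sub (p n).differentiable.differentiableOn
  refine sub_eq_zero.1 (eq_zero_abs hG hTG hGc
    (F := fun n w => Φ (dslope (fun z => f z - (p n).eval z) w))
    (g := fun n z => f z - (p n).eval z) (e := fun n => Φ f - aeval T (p n)) ?_ ?_ ?_ ?_)
  · intro n z hz
    exact (hΦ.hasDerivAt hV (hgd n) (hGU hz).2).differentiableAt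
  · intro n w hw
    have hwV : w ∈ V := (hGU hw).2
    set g : ℂ → ℂ := fun z => f z - (p n).eval z with hg
    have hds : DifferentiableOn ℂ (dslope g w) V :=
      (Complex.differentiableOn_dslope (hV.mem_nhds hwV)).2 (hgd n)
    have h1 := hΦ.mul (fun z => w - z) (dslope g w) ((differentiableOn_const _).sub
      differentiableOn_id) hds
    have h2 : Φ (fun z => w - z) = algebraMap ℂ _ w - T := by
      have h0 := hΦ.sub (g := fun _ => w) (h := fun z => z) (differentiableOn_const _)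
        differentiableOn_id
      rw [h0, hΦ.const, hΦ.id, Algebra.algebraMap_eq_smul_one]
    rw [h2] at h1
    rw [← h1]
    have h3 : (fun z => (w - z) * dslope g w z) = fun z => g w - g z := by
      funext z
      have := sub_smul_dslope g w z
      rw [smul_eq_mul] at this
      linear_combination -this
    rw [h3, hΦ.sub (differentiableOn_const _) (hgd n), hΦ.const,
      hΦ.sub hf (p n).differentiable.differentiableOn, hΦ.poly, Algebra.algebraMap_eq_smul_one]
  · have h1 := hp1.mono (hGU.trans inter_subset_left)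
    rw [Metric.tendstoUniformlyOn_iff] at h1 ⊢
    intro ε hε
    filter_upwards [h1 ε hε] with n hn z hz
    have := hn z hz
    rw [dist_eq_norm] at this ⊢
    rwa [zero_sub, norm_neg]
  · exact tendsto_const_nhds.sub hp2


theorem exists_nbhd [CompleteSpace H] {C₁ : Set ℂ} (hcl : IsClosed C₁) (hconv : Convex ℝ C₁)
    (hT : ∀ x : H, ‖x‖ = 1 → inner ℂ x (T x) ∈ C₁) (hV : IsOpen V) (hsub : C₁ ⊆ V) :
    ∃ K N : Set ℂ, IsCompact K ∧ Convex ℝ K ∧ K ⊆ V ∧ IsOpen N ∧ N ⊆ K ∧ spectrum ℂ T ⊆ N := by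
  rcases subsingleton_or_nontrivial H with hs | hn
  · refine ⟨∅, ∅, isCompact_empty, convex_empty, empty_subset _, isOpen_empty, subset_rfl, ?_⟩
    intro z hz
    exact absurd (isUnit_of_subsingleton _) (spectrum.mem_iff.1 hz)
  have hKc : IsCompact (C₁ ∩ closedBall 0 ‖T‖) := (isCompact_closedBall 0 _).inter_left hcl
  have hKv : Convex ℝ (C₁ ∩ closedBall 0 ‖T‖) := hconv.inter (convex_closedBall 0 _)
  have hσ : spectrum ℂ T ⊆ C₁ ∩ closedBall 0 ‖T‖ := fun z hz =>
    ⟨spectrum_subset_of_numRange hcl hconv hT hz, by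
      simpa using spectrum.norm_le_norm_of_mem hz⟩
  obtain ⟨r, hr, hrV⟩ := hKc.exists_cthickening_subset_open hV (inter_subset_left.trans hsub)
  exact ⟨cthickening r (C₁ ∩ closedBall 0 ‖T‖), thickening r (C₁ ∩ closedBall 0 ‖T‖),
    hKc.cthickening, hKv.cthickening r, hrV, isOpen_thickening, thickening_subset_cthickening _ _,
    hσ.trans (self_subset_thickening hr _)⟩

theorem exists_isCalculus [CompleteSpace H] [Nontrivial H] (T : H →L[ℂ] H) {K N : Set ℂ}
    (hK : IsCompact K) (hKv : Convex ℝ K) (hKV : K ⊆ V) (hN : IsOpen N) (hNK : N ⊆ K)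
    (hTN : spectrum ℂ T ⊆ N) (hV : IsOpen V) :
    ∃ Φ : (ℂ → ℂ) → (H →L[ℂ] H), IsCalculus T V Φ ∧
      ∀ g : ℂ → ℂ, DifferentiableOn ℂ g V → Calc T N g (Φ g) := by
  classical
  obtain ⟨κ, hκ0, hκ⟩ := exists_bound_open hN hTN
  have hex : ∀ g : ℂ → ℂ, DifferentiableOn ℂ g V → ∃ A, Calc T N g A := by
    intro g hg
    obtain ⟨p, hp⟩ := (runge hK hKv hV hKV hg).exists_seq
    have hp' : TendstoUniformlyOn (fun n z => (p n).eval z) g atTop N := hp.mono hNK
    obtain ⟨A, hA⟩ := exists_aeval_lim hκ0 hκ hp'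
    exact ⟨A, p, hp', hA⟩
  have huni : ∀ {g h : ℂ → ℂ} {A B : H →L[ℂ] H}, Calc T N g A → Calc T N h B → EqOn g h N →
      A = B := fun h1 h2 h3 => Calc.unique h1 h2 hN hN hTN hTN (by rwa [inter_self])
  set Φ : (ℂ → ℂ) → (H →L[ℂ] H) := fun g =>
    if hg : DifferentiableOn ℂ g V then (hex g hg).choose else 0 with hΦ
  have hΦc : ∀ g : ℂ → ℂ, DifferentiableOn ℂ g V → Calc T N g (Φ g) := by
    intro g hg
    simp only [hΦ, dif_pos hg]
    exact (hex g hg).choose_spec
  refine ⟨Φ, ⟨?_, ?_, ?_, ?_, ?_, ?_⟩, hΦc⟩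
  · have h1 : Calc T N (fun _ => (1 : ℂ)) ((1 : ℂ) • 1) := Calc.const 1
    rw [one_smul] at h1
    exact huni (hΦc _ (differentiableOn_const _)) h1 fun _ _ => rfl
  · have h1 : Calc T N (fun z => z) T := by
      refine ⟨fun _ => X, ?_, ?_⟩
      · rw [Metric.tendstoUniformlyOn_iff]
        intro ε hε
        filter_upwards with n z _
        simpa using hε
      · simp
    exact huni (hΦc _ differentiableOn_id) h1 fun _ _ => rfl
  · intro g h hg hh
    exact huni (hΦc _ (hg.add hh)) ((hΦc g hg).add (hΦc h hh)) fun _ _ => rfl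
  · intro c g hg
    exact huni (hΦc _ (hg.const_mul c)) ((hΦc g hg).smul c) fun _ _ => rfl
  · intro g h hg hh
    have hmul : Calc T N (fun z => g z * h z) (Φ g * Φ h) := by
      obtain ⟨p, h1, h2⟩ := hΦc g hg
      obtain ⟨q, h3, h4⟩ := hΦc h hh
      refine ⟨fun n => p n * q n, ?_, ?_⟩
      · obtain ⟨B, hB⟩ := hK.exists_bound_of_continuousOn (hg.continuousOn.mono hKV)
        obtain ⟨B', hB'⟩ := hK.exists_bound_of_continuousOn (hh.continuousOn.mono hKV)
        have hB0 : 0 ≤ max B 0 := le_max_right _ _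
        have hB0' : 0 ≤ max B' 0 := le_max_right _ _
        rw [Metric.tendstoUniformlyOn_iff] at h1 h3 ⊢
        intro ε hε
        set δ : ℝ := min 1 (ε / (2 * (max B 0 + max B' 0 + 1))) with hδ
        have hδ0 : 0 < δ := by positivity
        have hδ1 : δ ≤ 1 := min_le_left _ _
        have hδ2 : δ * (max B 0 + max B' 0 + 1) ≤ ε / 2 := by
          have h5 : δ ≤ ε / (2 * (max B 0 + max B' 0 + 1)) := min_le_right _ _
          rw [le_div_iff₀ (by positivity)] at h5
          linarith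
        filter_upwards [h1 δ hδ0, h3 δ hδ0] with n hn1 hn2 z hz
        have e1 := hn1 z hz
        have e2 := hn2 z hz
        rw [dist_eq_norm] at e1 e2 ⊢
        have e3 : ‖g z‖ ≤ max B 0 := (hB z (hNK hz)).trans (le_max_left _ _)
        have e4 : ‖h z‖ ≤ max B' 0 := (hB' z (hNK hz)).trans (le_max_left _ _)
        rw [eval_mul]
        have e5 : g z * h z - (p n).eval z * (q n).eval z =
            g z * (h z - (q n).eval z) + (g z - (p n).eval z) * h z -
              (g z - (p n).eval z) * (h z - (q n).eval z) := by ring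
        rw [e5]
        calc _ ≤ ‖g z * (h z - (q n).eval z) + (g z - (p n).eval z) * h z‖ +
              ‖(g z - (p n).eval z) * (h z - (q n).eval z)‖ := norm_sub_le _ _
          _ ≤ (‖g z * (h z - (q n).eval z)‖ + ‖(g z - (p n).eval z) * h z‖) +
              ‖(g z - (p n).eval z) * (h z - (q n).eval z)‖ := by
                gcongr; exact norm_add_le _ _
          _ = (‖g z‖ * ‖h z - (q n).eval z‖ + ‖g z - (p n).eval z‖ * ‖h z‖) +
              ‖g z - (p n).eval z‖ * ‖h z - (q n).eval z‖ := by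
                rw [norm_mul, norm_mul, norm_mul]
          _ ≤ (max B 0 * δ + δ * max B' 0) + δ * 1 := by
                gcongr
                exact e2.le.trans hδ1
          _ = δ * (max B 0 + max B' 0 + 1) := by ring
          _ < ε := by linarith
      · simpa using h2.mul h4
    exact huni (hΦc _ (hg.mul hh)) hmul fun _ _ => rfl
  · intro F g hF hg hlim
    rw [Metric.tendsto_atTop]
    intro ε hε
    have h1 := (tendstoLocallyUniformlyOn_iff_forall_isCompact hV).1 hlim K hKV hK
    rw [Metric.tendstoUniformlyOn_iff] at h1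
    obtain ⟨M, hM⟩ := eventually_atTop.1 (h1 (ε / (2 * κ)) (by positivity))
    refine ⟨M, fun n hn => ?_⟩
    have h2 := Calc.norm_sub_le hκ (hΦc _ (hF n)) (hΦc g hg) (M := ε / (2 * κ)) (fun z hz => by
      have := hM n hn z (hNK hz)
      rw [dist_comm, dist_eq_norm] at this
      exact this.le)
    rw [dist_eq_norm]
    refine h2.trans_lt ?_
    have h3 : κ * (ε / (2 * κ)) = ε / 2 := by field_simp
    rw [h3]
    linarith

/-- the textbook definition gives the same set -/
theorem WT_eq_W {C₁ : Set ℂ} (hcl : IsClosed C₁) (hconv : Convex ℝ C₁) (C₂ : Set ℂ) :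
    WT C₁ C₂ = W C₁ C₂ := by
  ext w
  constructor
  · rintro ⟨H, i1, i2, i3, T, f, V, Φ, hT, hV, hsub, hf, hfC, hΦ, x, hx, hw⟩
    have hn : Nontrivial H := ⟨x, 0, fun h => by rw [h, norm_zero] at hx; exact zero_ne_one hx⟩
    obtain ⟨K, N, hK, hKv, hKV, hN, hNK, hTN⟩ := exists_nbhd hcl hconv hT hV hsub
    obtain ⟨Ψ, hΨ, hΨc⟩ := exists_isCalculus T hK hKv hKV hN hNK hTN hV
    have h1 : Φ f = Ψ f := hΦ.eq_of_calc hV (hTN.trans (hNK.trans hKV)) hf hN hTN (hΨc f hf)
    obtain ⟨p, hp1, hp2⟩ := hΨc f hf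
    refine ⟨H, i1, i2, i3, T, f, Ψ f, V, hT, hV, hsub, hf, hfC, ⟨p, N, hN, hTN, hp1, hp2⟩, x, hx, ?_⟩
    rw [← h1]
    exact hw
  · rintro ⟨H, i1, i2, i3, T, f, A, V, hT, hV, hsub, hf, hfC, ⟨p, U, hU, hTU, hp1, hp2⟩, x, hx, hw⟩
    have hn : Nontrivial H := ⟨x, 0, fun h => by rw [h, norm_zero] at hx; exact zero_ne_one hx⟩
    obtain ⟨K, N, hK, hKv, hKV, hN, hNK, hTN⟩ := exists_nbhd hcl hconv hT hV hsub
    obtain ⟨Ψ, hΨ, hΨc⟩ := exists_isCalculus T hK hKv hKV hN hNK hTN hV
    have h1 : Ψ f = A := hΨ.eq_of_calc hV (hTN.trans (hNK.trans hKV)) hf hU hTU ⟨p, hp1, hp2⟩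
    refine ⟨H, i1, i2, i3, T, f, V, Ψ, hT, hV, hsub, hf, hfC, hΨ, x, hx, ?_⟩
    rw [h1]
    exact hw

end Pool.Agent.Lib.MP_c3d375_an
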